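import Pool.Agent.Helper61.GL.TST

set_option autoImplicit false

/-!
Part A_BUMP of half A of MP_a31c1c_an (swarm GL).
-/

open MeasureTheory Metric Set Filter Topology

namespace Pool.Agent.Helper61.GL

open Pool.GL Helper78.GL

variable {M : Type} (T : TS M)

theorem bump_val (p : M) (ψ : ℂ → ℝ) (z : ℂ) (hz : ‖z‖ < T.rho p / 4) :
    T.bump p ψ (T.Phi p z) = ψ z := by
  classical
  have hρ := T.rho_pos p
  unfold TS.bump
  have h : ∃ w : ℂ, ‖w‖ < T.rho p / 4 ∧ T.Phi p z = T.Phi p w := ⟨z, hz, rfl⟩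
  rw [dif_pos h]
  have h1 := h.choose_spec
  have h2 := T.Phi_inj p z h.choose (by linarith) (by linarith [h1.1]) h1.2
  rw [← h2]

theorem bump_zero (p : M) (ψ : ℂ → ℝ) (x : M) (hx : x ∉ T.disc p (T.rho p / 4)) :
    T.bump p ψ x = 0 := by
  classical
  unfold TS.bump
  rw [dif_neg]
  rintro ⟨z, hz, rfl⟩
  exact hx ⟨z, by simpa using hz, rfl⟩

theorem small_ev (δ : ℝ) (hδ : 0 < δ) : ∀ᶠ h : ℂ in 𝓝 0, ‖h‖ < δ := by
  filter_upwards [Metric.ball_mem_nhds (0 : ℂ) hδ] with h hh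
  simpa using hh

theorem bump_ev_zero (hA : S_TSA) (p : M) (ψ : ℂ → ℝ) (r : ℝ) (hr : r < T.rho p / 4)
    (hψ : ∀ w : ℂ, r ≤ ‖w‖ → ψ w = 0) (x : M) (hx : x ∉ T.disc p (T.rho p / 4)) :
    ∀ᶠ h : ℂ in 𝓝 0, T.bump p ψ (T.Phi x h) = 0 := by
  have hρ := T.rho_pos p
  filter_upwards [small_ev (T.rho x / 2) (by linarith [T.rho_pos x]),
    small_ev (T.rho p / 4 - r) (by linarith)] with h h1 h2
  by_contra hne
  have hy : T.Phi x h ∈ T.disc p (T.rho p / 4) := by
    by_contra hcon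
    exact hne (bump_zero T p ψ _ hcon)
  obtain ⟨w, hw, hyw⟩ := hy
  have hw' : ‖w‖ < T.rho p / 4 := by simpa using hw
  rw [← hyw, bump_val T p ψ w hw'] at hne
  have hwr : ‖w‖ < r := by
    by_contra hcon
    exact hne (hψ w (not_lt.1 hcon))
  have hback := (hA M T x h h1).2
  have hadd : T.Phi (T.Phi p w) (-h) = T.Phi p (w + -h) := by
    apply T.Phi_add
    rw [norm_neg]
    linarith
  apply hx
  refine ⟨w + -h, ?_, ?_⟩
  · have : ‖w + -h‖ ≤ ‖w‖ + ‖h‖ := by simpa using norm_add_le w (-h)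
    rw [mem_ball, dist_zero_right]
    linarith
  · rw [← hadd, hyw, hback]

theorem bump_smooth (hA : S_TSA) (p : M) (ψ : ℂ → ℝ) (r : ℝ) (hψs : ContDiff ℝ (⊤ : ℕ∞) ψ)
    (hr : r < T.rho p / 4) (hψ : ∀ w : ℂ, r ≤ ‖w‖ → ψ w = 0) : T.Smooth (T.bump p ψ) := by
  intro q z₀ hz₀
  apply ContDiffAt.contDiffWithinAt
  have hz₀' : ‖z₀‖ < T.rho q := by simpa using hz₀
  have htr : ∀ P : ℂ → Prop, (∀ᶠ h : ℂ in 𝓝 0, P h) → ∀ᶠ z : ℂ in 𝓝 z₀, P (z - z₀) := by
    intro P hP
    have ht : Tendsto (fun z : ℂ => z - z₀) (𝓝 z₀) (𝓝 0) := by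
      have h0 : Continuous fun z : ℂ => z - z₀ := by fun_prop
      have := h0.tendsto z₀
      simpa using this
    exact ht.eventually hP
  have hadd : ∀ᶠ z : ℂ in 𝓝 z₀, T.Phi q z = T.Phi (T.Phi q z₀) (z - z₀) := by
    refine (htr (fun h => T.Phi q (z₀ + h) = T.Phi (T.Phi q z₀) h) ?_).mono ?_
    · filter_upwards [small_ev (T.rho q - ‖z₀‖) (by linarith)] with h hh
      rw [T.Phi_add q z₀ h (by linarith)]
    · intro z hz
      simpa using hz
  by_cases hx : T.Phi q z₀ ∈ T.disc p (T.rho p / 4)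
  · obtain ⟨w₀, hw₀, hxw⟩ := hx
    have hw₀' : ‖w₀‖ < T.rho p / 4 := by simpa using hw₀
    have hρ := T.rho_pos p
    have hev : (fun z => T.bump p ψ (T.Phi q z)) =ᶠ[𝓝 z₀] fun z => ψ (w₀ + (z - z₀)) := by
      filter_upwards [hadd, htr _ (small_ev (T.rho p / 4 - ‖w₀‖) (by linarith))] with z h1 h2
      rw [h1, ← hxw, T.Phi_add p w₀ (z - z₀) (by linarith)]
      apply bump_val
      have := norm_add_le w₀ (z - z₀)
      linarith
    have hsm : ContDiff ℝ 1 (fun z => ψ (w₀ + (z - z₀))) := by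
      have h1 : ContDiff ℝ 1 ψ := hψs.of_le (by exact_mod_cast le_top)
      have h2 : ContDiff ℝ 1 (fun z : ℂ => w₀ + (z - z₀)) := by fun_prop
      exact h1.comp h2
    exact hsm.contDiffAt.congr_of_eventuallyEq hev
  · have hev : (fun z => T.bump p ψ (T.Phi q z)) =ᶠ[𝓝 z₀] fun _ => (0 : ℝ) := by
      filter_upwards [hadd, htr _ (bump_ev_zero T hA p ψ r hr hψ _ hx)] with z h1 h2
      rw [h1]
      exact h2
    exact contDiffAt_const.congr_of_eventuallyEq hev

theorem bump_csupp (p : M) (ψ : ℂ → ℝ) (r : ℝ) (h0 : 0 < r)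
    (hr : r < T.rho p / 4) (hψ : ∀ w : ℂ, r ≤ ‖w‖ → ψ w = 0) : T.CSupp (T.bump p ψ) := by
  classical
  refine ⟨{(p, r)}, ?_, ?_⟩
  · intro a ha
    rw [Finset.mem_singleton] at ha
    subst ha
    exact ⟨h0, hr⟩
  · intro x hx
    have hy : x ∈ T.disc p (T.rho p / 4) := by
      by_contra hcon
      exact hx (bump_zero T p ψ _ hcon)
    obtain ⟨w, hw, hyw⟩ := hy
    have hw' : ‖w‖ < T.rho p / 4 := by simpa using hw
    refine ⟨(p, r), Finset.mem_singleton_self _, w, ?_, hyw.symm⟩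
    rw [← hyw, bump_val T p ψ w hw'] at hx
    by_contra hcon
    exact hx (hψ w (not_le.1 hcon).le)

/-- integral of a function vanishing off the disc -/
theorem integral_disc (hI : S_INT) [MeasurableSpace M] {μ : Measure M} (hμ : T.IsArea μ)
    (F : M → ℝ) (hF : T.Cont F) (p : M) (hF0 : ∀ x, x ∉ T.disc p (T.rho p / 4) → F x = 0)
    (G : ℂ → ℝ) (hG : ∀ z : ℂ, ‖z‖ < T.rho p / 4 → F (T.Phi p z) = G z)
    (hG0 : ∀ z : ℂ, T.rho p / 4 ≤ ‖z‖ → G z = 0) :
    ∫ x, F x ∂μ = ∫ z : ℂ, G z := by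
  have hρ := T.rho_pos p
  have h1 := (hI M T μ hμ).2.2.2 F hF p (T.rho p / 4) (by linarith) le_rfl
  rw [setIntegral_eq_integral_of_forall_compl_eq_zero hF0] at h1
  rw [h1]
  have h2 : ∫ z in ball (0 : ℂ) (T.rho p / 4), F (T.Phi p z) =
      ∫ z in ball (0 : ℂ) (T.rho p / 4), G z := by
    refine setIntegral_congr_fun measurableSet_ball fun z hz => ?_
    exact hG z (by simpa using hz)
  rw [h2]
  refine setIntegral_eq_integral_of_forall_compl_eq_zero fun z hz => ?_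
  apply hG0
  simpa using hz

/-- BUMP -/
theorem bump_thm (hA : S_TSA) (hI : S_INT) : S_BUMP := by
  intro M T _ μ hμ p ψ r hψs h0 hr hψ
  have hsm := bump_smooth T hA p ψ r hψs hr hψ
  have hcs := bump_csupp T p ψ r h0 hr hψ
  have hρ := T.rho_pos p
  have hval : ∀ z : ℂ, ‖z‖ < T.rho p / 4 → T.bump p ψ (T.Phi p z) = ψ z :=
    fun z hz => bump_val T p ψ z hz
  refine ⟨⟨hsm, hcs⟩, hval, ?_, ?_⟩
  · intro v hv
    unfold TS.D
    refine integral_disc T hI hμ _ (cont_grad T hv.1 hsm) p ?_ _ ?_ ?_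
    · intro x hx
      have hev : (fun h => T.bump p ψ (T.Phi x h)) =ᶠ[𝓝 0] fun _ => (0 : ℝ) :=
        bump_ev_zero T hA p ψ r hr hψ x hx
      have hf : fderiv ℝ (fun h => T.bump p ψ (T.Phi x h)) 0 = 0 := by
        rw [hev.fderiv_eq]
        simp
      have h1 : T.dx (T.bump p ψ) x = 0 := by unfold TS.dx dX; rw [hf]; rfl
      have h2 : T.dy (T.bump p ψ) x = 0 := by unfold TS.dy dY; rw [hf]; rfl
      simp only [h1, h2]
      ring
    · intro z hz
      have hz' : ‖z‖ < T.rho p := by linarith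
      have hev : (fun y => T.bump p ψ (T.Phi p y)) =ᶠ[𝓝 z] ψ := by
        have hb : Metric.ball (0 : ℂ) (T.rho p / 4) ∈ 𝓝 z :=
          isOpen_ball.mem_nhds (by simpa using hz)
        filter_upwards [hb] with y hy
        exact hval y (by simpa using hy)
      have hf := hev.fderiv_eq (𝕜 := ℝ)
      rw [dx_phi T v p z hz', dy_phi T v p z hz', dx_phi T _ p z hz', dy_phi T _ p z hz']
      unfold dX dY
      rw [hf]
    · intro z hz
      have hev : ψ =ᶠ[𝓝 z] fun _ => (0 : ℝ) := by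
        have hc : ContinuousAt (fun y : ℂ => ‖y‖) z := continuous_norm.continuousAt
        have : ∀ᶠ y in 𝓝 z, r < ‖y‖ := hc.eventually (lt_mem_nhds (by linarith))
        filter_upwards [this] with y hy
        exact hψ y hy.le
      have hf : fderiv ℝ ψ z = 0 := by
        rw [hev.fderiv_eq]
        simp
      unfold dX dY
      rw [hf]
      simp
  · intro K hK
    have hc : T.Cont (T.bump p ψ) := fun q => (hsm q).continuousOn
    refine integral_disc T hI hμ _ (fun q => (hK q).mul (hc q)) p ?_ _ ?_ ?_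
    · intro x hx
      simp only [bump_zero T p ψ x hx, mul_zero]
    · intro z hz
      simp only [hval z hz]
    · intro z hz
      simp only [hψ z (by linarith), mul_zero]

end Pool.Agent.Helper61.GL
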