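import Pool.Agent.Helper78.GL.Spec

set_option autoImplicit false

/-!
Part A_CHAIN of half A of MP_a31c1c_an (swarm GL).
-/

open MeasureTheory Metric Set Filter Topology

namespace Pool.Agent.Helper61.GL

open Pool.GL Helper78.GL

theorem avg_recenter (P : Profile) {M : Type} (T : TS M) (v : M → ℝ) (p : M) (z : ℂ) (r : ℝ)
    (hr : 0 < r) (hz : ‖z‖ + r < T.rho p) :
    avg P.χ (fun y => v (T.Phi p y)) z r = avg P.χ (fun y => v (T.Phi (T.Phi p z) y)) 0 r := by
  unfold avg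
  congr 1
  funext w
  by_cases hw : 1 ≤ ‖w‖
  · rw [P.χ_supp w hw]; ring
  · have hw' : ‖w‖ < 1 := not_le.1 hw
    have h1 : ‖(r : ℂ) * w‖ ≤ r := by
      rw [norm_mul, Complex.norm_real, Real.norm_eq_abs, abs_of_pos hr]
      nlinarith
    simp only [zero_add]
    rw [T.Phi_add p z ((r : ℂ) * w) (by linarith)]

/-- change of centre and scale inside one chart -/
theorem move (hT : S_TRANS) (hS : S_TST) (P : Profile) {M : Type} (T : TS M) [MeasurableSpace M]
    (μ : Measure M) (hμ : T.IsArea μ) (p : M) (r : ℝ) (hB : BaseBound P T μ p r)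
    (z : ℂ) (r' : ℝ) (hr' : 0 < r') (hz : ‖z‖ + r' < T.rho p / 4) :
    ∃ C : ℝ, ∀ v, T.Test v →
      |avg P.χ (fun y => v (T.Phi p y)) z r'| ≤ C * √(T.D μ v v) := by
  obtain ⟨h0, h1, C₀, hC₀⟩ := hB
  have hρ := T.rho_pos p
  set A : ℝ := max 1 (max (r' / r) (max (r / r') (‖z‖ / r))) with hA
  have hA1 : 1 ≤ A := le_max_left _ _
  have hA2 : r' / r ≤ A := (le_max_left _ _).trans (le_max_right _ _)
  have hA3 : r / r' ≤ A :=
    (le_max_left _ _).trans ((le_max_right _ _).trans (le_max_right _ _))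
  have hA4 : ‖z‖ / r ≤ A :=
    (le_max_right _ _).trans ((le_max_right _ _).trans (le_max_right _ _))
  obtain ⟨C, hC0, hC⟩ := hT P A hA1
  refine ⟨C + C₀, fun v hv => ?_⟩
  set R₁ : ℝ := max r (‖z‖ + r') with hR₁
  have hR1 : R₁ < T.rho p / 4 := max_lt h1 hz
  have hR0 : 0 < R₁ := lt_of_lt_of_le h0 (le_max_left _ _)
  have h2 := hC (fun y => v (T.Phi p y)) (T.rho p / 4) R₁ r r' 0 z h0 hr'
    (by rwa [div_le_iff₀ h0] at hA2) (by rwa [div_le_iff₀ hr'] at hA3)
    (by rw [sub_zero]; rwa [div_le_iff₀ h0] at hA4)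
    (by rw [norm_zero, zero_add]; exact le_max_left _ _) (le_max_right _ _) hR1
    ((hv.1 p).mono (ball_subset_ball (by linarith)))
  have h3 := (hS M T μ hμ).2.2.2.2.2 v hv p R₁ hR0 hR1.le
  have h4 : √(en (fun y => v (T.Phi p y)) R₁) ≤ √(T.D μ v v) := Real.sqrt_le_sqrt h3
  have h5 := hC₀ v hv
  unfold base at h5
  have h6 : |avg P.χ (fun y => v (T.Phi p y)) z r'| ≤
      |avg P.χ (fun y => v (T.Phi p y)) 0 r - avg P.χ (fun y => v (T.Phi p y)) z r'| +
      |avg P.χ (fun y => v (T.Phi p y)) 0 r| := by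
    have := abs_sub_abs_le_abs_sub (avg P.χ (fun y => v (T.Phi p y)) z r')
      (avg P.χ (fun y => v (T.Phi p y)) 0 r)
    rw [abs_sub_comm] at this
    linarith
  calc _ ≤ _ := h6
    _ ≤ C * √(en (fun y => v (T.Phi p y)) R₁) + C₀ * √(T.D μ v v) := add_le_add h2 h5
    _ ≤ C * √(T.D μ v v) + C₀ * √(T.D μ v v) := by gcongr
    _ = _ := by ring

theorem move_scale (hT : S_TRANS) (hS : S_TST) (P : Profile) {M : Type} (T : TS M)
    [MeasurableSpace M] (μ : Measure M) (hμ : T.IsArea μ) (p : M) (r : ℝ)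
    (hB : BaseBound P T μ p r) (r' : ℝ) (hr' : 0 < r') (h : r' < T.rho p / 4) :
    BaseBound P T μ p r' := by
  obtain ⟨C, hC⟩ := move hT hS P T μ hμ p r hB 0 r' hr' (by simpa using h)
  exact ⟨hr', h, C, fun v hv => hC v hv⟩

/-- CHAIN -/
theorem chain_thm (hT : S_TRANS) (hS : S_TST) (hC : S_TSC) : S_CHAIN := by
  intro P M T _ μ p₀ r₀ hμ hB p
  have key : ∀ q, Relation.ReflTransGen
      (fun x y => ∃ z, ‖z‖ < (1 / 8 : ℝ) * T.rho x ∧ y = T.Phi x z) p₀ q →
      ∀ r, 0 < r → r < T.rho q / 4 → BaseBound P T μ q r := by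
    intro q hq
    induction hq with
    | refl => exact fun r h0 h1 => move_scale hT hS P T μ hμ p₀ r₀ hB r h0 h1
    | @tail x y _ hxy ih =>
      obtain ⟨z, hz, rfl⟩ := hxy
      intro r h0 h1
      have hρx := T.rho_pos x
      have hρy := T.rho_pos (T.Phi x z)
      set r' : ℝ := min (T.rho x / 16) (T.rho (T.Phi x z) / 8) with hr'
      have hr0 : 0 < r' := lt_min (by linarith) (by linarith)
      have hr1 : r' ≤ T.rho x / 16 := min_le_left _ _
      have hr2 : r' ≤ T.rho (T.Phi x z) / 8 := min_le_right _ _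
      have hB' := ih (T.rho x / 8) (by linarith) (by linarith)
      obtain ⟨C, hC'⟩ := move hT hS P T μ hμ x _ hB' z r' hr0 (by linarith)
      have hB2 : BaseBound P T μ (T.Phi x z) r' := by
        refine ⟨hr0, by linarith, C, fun v hv => ?_⟩
        have h2 := hC' v hv
        rw [avg_recenter P T v x z r' hr0 (by linarith)] at h2
        exact h2
      exact move_scale hT hS P T μ hμ _ r' hB2 r h0 h1
  exact key p (hC M T (1 / 8) (by norm_num) p₀ p)

end Pool.Agent.Helper61.GL
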