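import Pool.Agent.Helper78.GL.Spec

set_option autoImplicit false

/-!
Parts A_TST and A_COMP of half A of MP_a31c1c_an (swarm GL).
-/

open MeasureTheory Metric Set Filter Topology

namespace Pool.Agent.Helper61.GL

open Pool.GL Helper78.GL

variable {M : Type} (T : TS M)

/-- moving the centre of a chart -/
theorem phi_eventually (v : M → ℝ) (p : M) (z : ℂ) (hz : ‖z‖ < T.rho p) :
    (fun h => v (T.Phi (T.Phi p z) h)) =ᶠ[𝓝 0] (fun h => v (T.Phi p (z + h))) := by
  have : ∀ᶠ h : ℂ in 𝓝 0, ‖h‖ < T.rho p - ‖z‖ := by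
    have hb : Metric.ball (0 : ℂ) (T.rho p - ‖z‖) ∈ 𝓝 (0 : ℂ) :=
      Metric.ball_mem_nhds _ (by linarith)
    filter_upwards [hb] with h hh
    simpa using hh
  filter_upwards [this] with h hh
  rw [T.Phi_add p z h (by linarith)]

theorem fderiv_shift (v : M → ℝ) (p : M) (z : ℂ) (hz : ‖z‖ < T.rho p) :
    fderiv ℝ (fun h => v (T.Phi (T.Phi p z) h)) 0 = fderiv ℝ (fun y => v (T.Phi p y)) z := by
  rw [(phi_eventually T v p z hz).fderiv_eq]
  have := fderiv_comp_add_left (𝕜 := ℝ) (f := fun y => v (T.Phi p y)) (x := (0 : ℂ)) z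
  simpa using this

theorem dx_phi (v : M → ℝ) (p : M) (z : ℂ) (hz : ‖z‖ < T.rho p) :
    T.dx v (T.Phi p z) = dX (fun y => v (T.Phi p y)) z := by
  unfold TS.dx dX
  rw [fderiv_shift T v p z hz]

theorem dy_phi (v : M → ℝ) (p : M) (z : ℂ) (hz : ‖z‖ < T.rho p) :
    T.dy v (T.Phi p z) = dY (fun y => v (T.Phi p y)) z := by
  unfold TS.dy dY
  rw [fderiv_shift T v p z hz]

theorem smooth_diffAt {v : M → ℝ} (hv : T.Smooth v) (x : M) :
    DifferentiableAt ℝ (fun z => v (T.Phi x z)) 0 := by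
  have h := (hv x).differentiableOn (by norm_num)
  exact h.differentiableAt (Metric.ball_mem_nhds _ (T.rho_pos x))

theorem cont_dx {v : M → ℝ} (hv : T.Smooth v) : T.Cont (T.dx v) := by
  intro p
  have h1 : ContinuousOn (fderiv ℝ (fun z => v (T.Phi p z))) (ball 0 (T.rho p)) :=
    (hv p).continuousOn_fderiv_of_isOpen isOpen_ball le_rfl
  have h2 : ContinuousOn (fun z => fderiv ℝ (fun z => v (T.Phi p z)) z 1) (ball 0 (T.rho p)) :=
    h1.clm_apply continuousOn_const
  refine h2.congr fun z hz => ?_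
  exact dx_phi T v p z (by simpa using hz)

theorem cont_dy {v : M → ℝ} (hv : T.Smooth v) : T.Cont (T.dy v) := by
  intro p
  have h1 : ContinuousOn (fderiv ℝ (fun z => v (T.Phi p z))) (ball 0 (T.rho p)) :=
    (hv p).continuousOn_fderiv_of_isOpen isOpen_ball le_rfl
  have h2 : ContinuousOn (fun z => fderiv ℝ (fun z => v (T.Phi p z)) z Complex.I)
      (ball 0 (T.rho p)) := h1.clm_apply continuousOn_const
  refine h2.congr fun z hz => ?_
  exact dy_phi T v p z (by simpa using hz)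

theorem cont_grad {v u : M → ℝ} (hv : T.Smooth v) (hu : T.Smooth u) :
    T.Cont (fun x => T.dx v x * T.dx u x + T.dy v x * T.dy u x) := fun p =>
  ((cont_dx T hv p).mul (cont_dx T hu p)).add ((cont_dy T hv p).mul (cont_dy T hu p))

theorem csupp_grad (hA : S_TSA) {v : M → ℝ} (hv : T.CSupp v) :
    ∃ S : Finset (M × ℝ), (∀ a ∈ S, 0 < a.2 ∧ a.2 < T.rho a.1 / 4) ∧
    ∀ x, (T.dx v x ≠ 0 ∨ T.dy v x ≠ 0) → ∃ a ∈ S, ∃ z : ℂ, ‖z‖ ≤ a.2 ∧ x = T.Phi a.1 z := by
  classical
  obtain ⟨S, hS, hsupp⟩ := hv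
  refine ⟨S.image (fun a => (a.1, (a.2 + T.rho a.1 / 4) / 2)), ?_, ?_⟩
  · intro a ha
    obtain ⟨b, hb, rfl⟩ := Finset.mem_image.1 ha
    have := hS b hb
    constructor <;> simp only <;> linarith
  · intro x hx
    by_contra hcon
    push Not at hcon
    have hev : (fun h => v (T.Phi x h)) =ᶠ[𝓝 0] fun _ => (0 : ℝ) := by
      have h1 : ∀ᶠ h : ℂ in 𝓝 0, ‖h‖ < T.rho x / 2 := by
        have hb : Metric.ball (0 : ℂ) (T.rho x / 2) ∈ 𝓝 (0 : ℂ) :=
          Metric.ball_mem_nhds _ (by linarith [T.rho_pos x])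
        filter_upwards [hb] with h hh
        simpa using hh
      have h2 : ∀ᶠ h : ℂ in 𝓝 0, ∀ a ∈ S, ‖h‖ < (T.rho a.1 / 4 - a.2) / 2 := by
        rw [Filter.eventually_all_finset]
        intro a ha
        have hb : Metric.ball (0 : ℂ) ((T.rho a.1 / 4 - a.2) / 2) ∈ 𝓝 (0 : ℂ) :=
          Metric.ball_mem_nhds _ (by linarith [(hS a ha).2])
        filter_upwards [hb] with h hh
        simpa using hh
      filter_upwards [h1, h2] with h hh1 hh2
      by_contra hne
      obtain ⟨a, ha, w, hw, hxw⟩ := hsupp _ hne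
      have hr := hh2 a ha
      have hback := (hA M T x h hh1).2
      have hρ := T.rho_pos a.1
      have hadd : T.Phi (T.Phi a.1 w) (-h) = T.Phi a.1 (w + -h) := by
        apply T.Phi_add
        rw [norm_neg]
        have := (hS a ha)
        linarith
      have hxx : x = T.Phi a.1 (w + -h) := by
        rw [← hadd, ← hxw, hback]
      refine hcon (a.1, (a.2 + T.rho a.1 / 4) / 2)
        (Finset.mem_image_of_mem _ ha) (w + -h) ?_ hxx
      have : ‖w + -h‖ ≤ ‖w‖ + ‖h‖ := by
        simpa using norm_add_le w (-h)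
      simp only
      linarith
    have hf : fderiv ℝ (fun h => v (T.Phi x h)) 0 = 0 := by
      rw [hev.fderiv_eq]
      simp
    rcases hx with hx | hx
    · exact hx (by unfold TS.dx dX; rw [hf]; rfl)
    · exact hx (by unfold TS.dy dY; rw [hf]; rfl)

theorem csupp_grad_mul (hA : S_TSA) {v : M → ℝ} (u : M → ℝ) (hv : T.CSupp v) :
    T.CSupp (fun x => T.dx v x * T.dx u x + T.dy v x * T.dy u x) := by
  obtain ⟨S, hS, h⟩ := csupp_grad T hA hv
  refine ⟨S, hS, fun x hx => h x ?_⟩
  by_contra hcon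
  push Not at hcon
  exact hx (by simp only [hcon.1, hcon.2]; ring)

variable [MeasurableSpace M] {μ : Measure M}

theorem integrable_grad (hA : S_TSA) (hI : S_INT) (hμ : T.IsArea μ) {v u : M → ℝ}
    (hv : T.Test v) (hu : T.Test u) :
    Integrable (fun x => T.dx v x * T.dx u x + T.dy v x * T.dy u x) μ :=
  (hI M T μ hμ).2.2.1 _ (cont_grad T hv.1 hu.1) (csupp_grad_mul T hA u hv.2)

omit [MeasurableSpace M] in
theorem dx_lin {v w : M → ℝ} (hv : T.Smooth v) (hw : T.Smooth w) (a b : ℝ) (x : M) :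
    T.dx (fun x => a * v x + b * w x) x = a * T.dx v x + b * T.dx w x ∧
    T.dy (fun x => a * v x + b * w x) x = a * T.dy v x + b * T.dy w x := by
  have h1 := (smooth_diffAt T hv x).hasFDerivAt.const_mul a
  have h2 := (smooth_diffAt T hw x).hasFDerivAt.const_mul b
  have h3 := (h1.add h2).fderiv
  have h4 : fderiv ℝ (fun z => a * v (T.Phi x z) + b * w (T.Phi x z)) 0 =
      a • fderiv ℝ (fun z => v (T.Phi x z)) 0 + b • fderiv ℝ (fun z => w (T.Phi x z)) 0 := h3
  constructor
  · unfold TS.dx dX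
    rw [h4]; simp
  · unfold TS.dy dY
    rw [h4]; simp

omit [MeasurableSpace M] in
theorem test_lin {v w : M → ℝ} (hv : T.Test v) (hw : T.Test w) (a b : ℝ) :
    T.Test (fun x => a * v x + b * w x) := by
  classical
  refine ⟨fun p => ?_, ?_⟩
  · exact (contDiffOn_const.mul (hv.1 p)).add (contDiffOn_const.mul (hw.1 p))
  · obtain ⟨S, hS, h⟩ := hv.2
    obtain ⟨S', hS', h'⟩ := hw.2
    refine ⟨S ∪ S', ?_, ?_⟩
    · intro c hc
      rcases Finset.mem_union.1 hc with hc | hc
      · exact hS c hc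
      · exact hS' c hc
    · intro x hx
      by_cases h1 : v x = 0
      · have h2 : w x ≠ 0 := by
          intro h2
          exact hx (by simp only [h1, h2]; ring)
        obtain ⟨c, hc, z, hz⟩ := h' x h2
        exact ⟨c, Finset.mem_union_right _ hc, z, hz⟩
      · obtain ⟨c, hc, z, hz⟩ := h x h1
        exact ⟨c, Finset.mem_union_left _ hc, z, hz⟩

omit [MeasurableSpace M] in
theorem test_zero : T.Test (0 : M → ℝ) := by
  refine ⟨fun p => ?_, ∅, by simp, fun x hx => absurd rfl hx⟩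
  exact contDiffOn_const

/-- TST -/
theorem tst_thm (hA : S_TSA) (hI : S_INT) : S_TST := by
  intro M T _ μ hμ
  refine ⟨test_zero T, fun v w hv hw a b => test_lin T hv hw a b, ?_, ?_, ?_, ?_⟩
  · intro v w
    unfold TS.D
    congr 1
    ext x
    ring
  · intro v _
    unfold TS.D
    exact integral_nonneg fun x => by
      simp only [Pi.zero_apply]
      nlinarith [mul_self_nonneg (T.dx v x), mul_self_nonneg (T.dy v x)]
  · intro v w u hv hw hu a b
    unfold TS.D
    have hvu := integrable_grad T hA hI hμ hv hu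
    have hwu := integrable_grad T hA hI hμ hw hu
    rw [← integral_const_mul, ← integral_const_mul,
      ← integral_add (hvu.const_mul a) (hwu.const_mul b)]
    congr 1
    ext x
    rw [(dx_lin T hv.1 hw.1 a b x).1, (dx_lin T hv.1 hw.1 a b x).2]
    ring
  · intro v hv p r hr hrp
    have hvv := integrable_grad T hA hI hμ hv hv
    have hρ := T.rho_pos p
    have h1 := (hI M T μ hμ).2.2.2 _ (cont_grad T hv.1 hv.1) p r hr hrp
    have h2 : en (fun z => v (T.Phi p z)) r =
        ∫ z in ball (0 : ℂ) r, (T.dx v (T.Phi p z) * T.dx v (T.Phi p z) +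
          T.dy v (T.Phi p z) * T.dy v (T.Phi p z)) := by
      unfold en
      refine setIntegral_congr_fun measurableSet_ball fun z hz => ?_
      have hz' : ‖z‖ < T.rho p := by
        have : ‖z‖ < r := by simpa using hz
        linarith
      rw [dx_phi T v p z hz', dy_phi T v p z hz']
      ring
    rw [h2, ← h1]
    unfold TS.D
    exact setIntegral_le_integral hvv (Eventually.of_forall fun x => by
      simp only [Pi.zero_apply]
      nlinarith [mul_self_nonneg (T.dx v x), mul_self_nonneg (T.dy v x)])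

omit [MeasurableSpace M] in
theorem dx_comp {v : M → ℝ} (hv : T.Smooth v) {τ : ℝ → ℝ} (hτ : ContDiff ℝ 1 τ) (x : M) :
    T.dx (fun x => τ (v x)) x = deriv τ (v x) * T.dx v x ∧
    T.dy (fun x => τ (v x)) x = deriv τ (v x) * T.dy v x := by
  have h1 := (smooth_diffAt T hv x).hasFDerivAt
  have h0 : v (T.Phi x 0) = v x := by rw [T.Phi_zero]
  have h2 : HasDerivAt τ (deriv τ (v x)) (v (T.Phi x 0)) := by
    rw [h0]
    exact (hτ.differentiable (by norm_num) (v x)).hasDerivAt
  have h3 := (h2.comp_hasFDerivAt (0 : ℂ) h1).fderiv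
  have h4 : fderiv ℝ (fun z => τ (v (T.Phi x z))) 0 =
      deriv τ (v x) • fderiv ℝ (fun z => v (T.Phi x z)) 0 := h3
  constructor
  · unfold TS.dx dX
    rw [h4]; simp
  · unfold TS.dy dY
    rw [h4]; simp

omit [MeasurableSpace M] in
theorem test_comp {v : M → ℝ} (hv : T.Test v) {τ : ℝ → ℝ} (hτ : ContDiff ℝ 1 τ)
    (h0 : τ 0 = 0) : T.Test (fun x => τ (v x)) := by
  refine ⟨fun p => hτ.comp_contDiffOn (hv.1 p), ?_⟩
  obtain ⟨S, hS, h⟩ := hv.2
  refine ⟨S, hS, fun x hx => h x ?_⟩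
  intro hx0
  exact hx (by simp only [hx0, h0])

/-- COMP -/
theorem comp_thm (hA : S_TSA) (hI : S_INT) : S_COMP := by
  intro M T _ μ hμ τ hτ h0 hτ' v hv
  have hw := test_comp T hv hτ h0
  refine ⟨hw, ?_⟩
  have hvw := integrable_grad T hA hI hμ hv hw
  have hww := integrable_grad T hA hI hμ hw hw
  unfold TS.D
  rw [← integral_neg]
  refine integral_mono hww hvw.neg fun x => ?_
  simp only
  rw [(dx_comp T hv.1 hτ x).1, (dx_comp T hv.1 hτ x).2]
  have h1 := (hτ' (v x)).1
  have h2 := (hτ' (v x)).2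
  have h3 : 0 ≤ T.dx v x ^ 2 + T.dy v x ^ 2 := by positivity
  have h4 : deriv τ (v x) ^ 2 ≤ - deriv τ (v x) := by nlinarith
  nlinarith [mul_le_mul_of_nonneg_right h4 h3]

end Pool.Agent.Helper61.GL
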